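import Mathlib
import Pool.Agent.Helper89.EntDefs
import Pool.Agent.Helper89.EntL

/-!
The causal structure has observed nodes `x, y, z, a, b, c` (numbered `0, ..., 5`), one unobserved
node `L`, and edges `x → z`, `y → z`, `x → a`, `y → b`, `z → c`, `L → a`, `L → b`, `L → c`.
The theorem says that the topological closures of the sets of entropy vectors of the observed
nodes differ for the classical and the quantum versions of this structure.

The separating point is the entropy vector of the following quantum distribution: `x`, `y` are
uniform bits, `z = x + y` mod 2, and `a`, `b`, `c` are the outcomes of Pauli X or Y measurements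
(chosen by `x`, `y`, `z`) on a GHZ state.
-/

namespace Pool.Agent.Results.MP_4af25b_mp.ClosureSeparation

open Pool.Agent.Helper89.Ent

theorem result :
    closure (entropyVectors IsClassical) ≠ closure (entropyVectors IsQuantum) := by
  intro h
  refine not_classical vStar hvals ?_
  rw [h]
  exact subset_closure ⟨k2, PStar, PStar_quantum, fun _ => rfl⟩

end Pool.Agent.Results.MP_4af25b_mp.ClosureSeparation
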